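import Pool.Agent.H422R2.LP.ZDraft

/-!
# Assembly of the measure of linear independence of `1, log 2, π²` (from the blocks)
-/

open Polynomial Filter Topology MeasureTheory

namespace Pool.Agent.LP.MS

noncomputable section

/-- archimedean bound for perturbed relations -/
def StBM : Prop := ∀ᶠ n : ℕ in atTop, ∀ m : ℕ, 4 * n - 1 ≤ m → m ≤ 4 * n + 1 → ∀ α β γ : ℤ,
    |(γ : ℝ) - α * Real.log 2 - β * (Real.pi ^ 2 / 12)| ≤ Real.exp (-28.5 * n) →
    |((DD n (5 * n) m α β γ : ℚ) : ℝ)| ≤ (2 * |(α : ℝ)| + 2 * |(β : ℝ)| + 1) ^ m *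
      Real.exp (4 * (n : ℝ) ^ 2 * Real.log n - 28.5 * (n : ℝ) ^ 2)

/-- a very small value of the linear form forces `n` to be bounded by the logarithm of the height -/
theorem core (hN : StN) (hBM : StBM) (hP : StP) (hL : StL) : ∃ N1 : ℕ, 25 ≤ N1 ∧ ∀ n : ℕ, N1 ≤ n → ∀ α β γ : ℤ,
    (α ≠ 0 ∨ β ≠ 0) → |(γ : ℝ) - α * Real.log 2 - β * (Real.pi ^ 2 / 12)| ≤ Real.exp (-28.5 * n) →
    (n : ℝ) ≤ 10.1 * Real.log (2 * |(α : ℝ)| + 2 * |(β : ℝ)| + 1) := by
  have h12 := hBM.and hP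
  rw [eventually_atTop] at h12
  obtain ⟨N1, hN1⟩ := h12
  refine ⟨N1 + 25, by omega, fun n hn α β γ hne hsmall => ?_⟩
  set c : ℝ := 2 * |(α : ℝ)| + 2 * |(β : ℝ)| + 1 with hc
  have hc1 : 1 ≤ c := by
    have h2 := abs_nonneg (α : ℝ)
    have h3 := abs_nonneg (β : ℝ)
    rw [hc]; linarith
  have hlc : 0 ≤ Real.log c := Real.log_nonneg hc1
  have hn2 : 2 ≤ n := by omega
  obtain ⟨m, hm1, hm2, hD⟩ := hN n hn2 α β γ hne
  obtain ⟨hB, hPn⟩ := hN1 n (by omega)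
  have hA := hB m hm1 hm2 α β γ hsmall
  have hPn := hPn m hm1 hm2 α β γ hD
  set z : ℚ := DD n (5 * n) m α β γ with hz
  set S : Finset ℕ := (Finset.range (5 * n + 1)).filter Nat.Prime with hS
  have hpf := Pool.Agent.H336R2.HD.A5_prod_formula z hD S (fun p hp => (Finset.mem_filter.1 hp).2)
    (fun p => ((padicNorm p z : ℚ) : ℝ)) (fun p _ => le_rfl) (fun p hp hpS => by
      rw [hS, Finset.mem_filter, Finset.mem_range] at hpS
      have h1 : 5 * n < p := by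
        by_contra h; exact hpS ⟨by omega, hp⟩
      exact hL n m p hp (by omega) h1 hm2 α β γ)
  have hpos : ∀ p ∈ S, 0 < ((padicNorm p z : ℚ) : ℝ) := by
    intro p hp
    have : Fact p.Prime := ⟨(Finset.mem_filter.1 hp).2⟩
    have h1 : 0 < padicNorm p z := lt_of_le_of_ne (padicNorm.nonneg _) (Ne.symm (padicNorm.nonzero hD))
    exact_mod_cast h1
  have hprodpos : 0 < ∏ p ∈ S, ((padicNorm p z : ℚ) : ℝ) := Finset.prod_pos hpos
  have hzabs : 0 < |(z : ℝ)| := abs_pos.2 (by exact_mod_cast hD)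
  have hlog := Real.log_nonneg hpf
  rw [Real.log_mul hzabs.ne' hprodpos.ne', Real.log_prod (fun p hp => (hpos p hp).ne')] at hlog
  have hn0 : (0 : ℝ) < n := by exact_mod_cast (by omega : 0 < n)
  have hc0 : 0 < c := by linarith
  have hlz : Real.log |(z : ℝ)| ≤ m * Real.log c + (4 * (n : ℝ) ^ 2 * Real.log n - 28.5 * (n : ℝ) ^ 2) := by
    calc Real.log |(z : ℝ)| ≤ Real.log (c ^ m * Real.exp (4 * (n : ℝ) ^ 2 * Real.log n - 28.5 * (n : ℝ) ^ 2)) :=
          Real.log_le_log hzabs hA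
      _ = m * Real.log c + (4 * (n : ℝ) ^ 2 * Real.log n - 28.5 * (n : ℝ) ^ 2) := by
          rw [Real.log_mul (by positivity) (Real.exp_pos _).ne', Real.log_pow, Real.log_exp]
  have hmR : (m : ℝ) ≤ 4 * n + 1 := by exact_mod_cast hm2
  have hmq : ((m : ℕ) : ℝ) * Real.log c ≤ (4 * n + 1) * Real.log c :=
    mul_le_mul_of_nonneg_right hmR hlc
  have hkey : (n : ℝ) * (0.4 * n) ≤ (4 * n + 1) * Real.log c := by nlinarith
  have hn25 : (25 : ℝ) ≤ n := by exact_mod_cast (by omega : 25 ≤ n)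
  have h3 : (4 * (n : ℝ) + 1) * Real.log c ≤ n * (4.04 * Real.log c) := by nlinarith
  have h4 : (n : ℝ) * (0.4 * n) ≤ n * (4.04 * Real.log c) := hkey.trans h3
  have h5 := le_of_mul_le_mul_left h4 hn0
  linarith

/-- measure of linear independence -/
theorem measure_of (hN : StN) (hBM : StBM) (hP : StP) (hL : StL) :
    ∃ c : ℝ, 0 < c ∧ ∀ a b d : ℤ, (b ≠ 0 ∨ d ≠ 0) →
      c / (max |(b : ℝ)| |(d : ℝ)|) ^ 288 ≤ |(a : ℝ) + b * Real.log 2 + d * Real.pi ^ 2| := by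
  obtain ⟨N1, h25, hN1⟩ := core hN hBM hP hL
  refine ⟨Real.exp (-28.5 * (N1 + 1)) / 27 ^ 288, by positivity, fun a b d hne => ?_⟩
  obtain ⟨H, hH⟩ : ∃ H : ℝ, H = max |(b : ℝ)| |(d : ℝ)| := ⟨_, rfl⟩
  rw [← hH]
  have hbH : |(b : ℝ)| ≤ H := hH ▸ le_max_left _ _
  have hdH : |(d : ℝ)| ≤ H := hH ▸ le_max_right _ _
  have hH1 : 1 ≤ H := by
    rcases hne with h | h
    · exact le_trans (by exact_mod_cast Int.one_le_abs h) hbH
    · exact le_trans (by exact_mod_cast Int.one_le_abs h) hdH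
  have hH0 : 0 < H := by linarith
  set c : ℝ := 2 * |((b : ℤ) : ℝ)| + 2 * |((12 * d : ℤ) : ℝ)| + 1 with hc
  have h12d : |((12 * d : ℤ) : ℝ)| = 12 * |(d : ℝ)| := by
    push_cast
    rw [abs_mul]
    norm_num
  have hcle : c ≤ 27 * H := by
    rw [hc, h12d]
    linarith
  have hc1 : 1 ≤ c := by
    rw [hc]
    have h2 := abs_nonneg (b : ℝ)
    have h3 := abs_nonneg ((12 * d : ℤ) : ℝ)
    linarith
  have hlc : 0 ≤ Real.log c := Real.log_nonneg hc1
  have hlcle : Real.log c ≤ Real.log (27 * H) := Real.log_le_log (by linarith) hcle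
  obtain ⟨n, hn⟩ : ∃ n : ℕ, n = N1 + (Nat.floor (10.1 * Real.log c) + 1) := ⟨_, rfl⟩
  have hfl : 10.1 * Real.log c < (Nat.floor (10.1 * Real.log c) : ℝ) + 1 := Nat.lt_floor_add_one _
  have hfl2 : (Nat.floor (10.1 * Real.log c) : ℝ) ≤ 10.1 * Real.log c := Nat.floor_le (by positivity)
  have hnR : (n : ℝ) = N1 + (Nat.floor (10.1 * Real.log c) + 1) := by rw [hn]; push_cast; ring
  have hN10 : (0 : ℝ) ≤ N1 := Nat.cast_nonneg _
  have hbig : Real.exp (-28.5 * n) < |((-a : ℤ) : ℝ) - ((b : ℤ) : ℝ) * Real.log 2 -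
      ((12 * d : ℤ) : ℝ) * (Real.pi ^ 2 / 12)| := by
    by_contra hcon
    push Not at hcon
    have h1 := hN1 n (by omega) b (12 * d) (-a) (by omega) hcon
    rw [← hc] at h1
    linarith
  have heq : |((-a : ℤ) : ℝ) - ((b : ℤ) : ℝ) * Real.log 2 - ((12 * d : ℤ) : ℝ) * (Real.pi ^ 2 / 12)| =
      |(a : ℝ) + b * Real.log 2 + d * Real.pi ^ 2| := by
    rw [← abs_neg]
    congr 1
    push_cast
    ring
  rw [heq] at hbig
  refine le_trans ?_ hbig.le
  rw [div_div, div_le_iff₀ (by positivity), ← mul_pow]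
  have h27 : (27 * H) ^ 288 = Real.exp (288 * Real.log (27 * H)) := by
    rw [mul_comm (288 : ℝ), Real.exp_mul, Real.exp_log (by positivity)]
    norm_cast
  rw [h27, ← Real.exp_add, Real.exp_le_exp, hnR]
  have hl27 : 0 ≤ Real.log (27 * H) := Real.log_nonneg (by linarith)
  nlinarith

end

end Pool.Agent.LP.MS
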