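import Mathlib

/-!
# From integer relations to linear independence over `ℚ` (three real numbers `1, x, y`)
-/

namespace Pool.Agent.LP.MS

/-- if `a + b x + d y ≠ 0` for all integers `a, b, d` with `(b, d) ≠ 0`, then `1, x, y` are linearly independent -/
theorem lin_of {x y : ℝ} (h : ∀ a b d : ℤ, (b ≠ 0 ∨ d ≠ 0) → (a : ℝ) + b * x + d * y ≠ 0) :
    LinearIndependent ℚ ![(1 : ℝ), x, y] := by
  rw [Fintype.linearIndependent_iff]
  intro g hg
  rw [Fin.sum_univ_three] at hg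
  simp only [Matrix.cons_val_zero, Matrix.cons_val_one, Matrix.cons_val_two, Matrix.head_cons,
    Matrix.tail_cons, Rat.smul_def, mul_one, Matrix.cons_val] at hg
  obtain ⟨d, hd⟩ : ∃ d : ℕ, d = (g 0).den * (g 1).den * (g 2).den := ⟨_, rfl⟩
  have hd0 : d ≠ 0 := by
    rw [hd]
    exact mul_ne_zero (mul_ne_zero (g 0).den_nz (g 1).den_nz) (g 2).den_nz
  have e0 : ((d : ℚ) * g 0) = (((g 0).num * (g 1).den * (g 2).den : ℤ) : ℚ) := by
    rw [hd]
    have := Rat.mul_den_eq_num (g 0)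
    push_cast
    rw [← this]
    ring
  have e1 : ((d : ℚ) * g 1) = (((g 1).num * (g 0).den * (g 2).den : ℤ) : ℚ) := by
    rw [hd]
    have := Rat.mul_den_eq_num (g 1)
    push_cast
    rw [← this]
    ring
  have e2 : ((d : ℚ) * g 2) = (((g 2).num * (g 0).den * (g 1).den : ℤ) : ℚ) := by
    rw [hd]
    have := Rat.mul_den_eq_num (g 2)
    push_cast
    rw [← this]
    ring
  obtain ⟨A, hA⟩ : ∃ A : ℤ, A = (g 0).num * (g 1).den * (g 2).den := ⟨_, rfl⟩
  obtain ⟨B, hB⟩ : ∃ B : ℤ, B = (g 1).num * (g 0).den * (g 2).den := ⟨_, rfl⟩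
  obtain ⟨C, hC⟩ : ∃ C : ℤ, C = (g 2).num * (g 0).den * (g 1).den := ⟨_, rfl⟩
  rw [← hA] at e0
  rw [← hB] at e1
  rw [← hC] at e2
  have e0' : (d : ℝ) * (g 0 : ℝ) = (A : ℝ) := by exact_mod_cast e0
  have e1' : (d : ℝ) * (g 1 : ℝ) = (B : ℝ) := by exact_mod_cast e1
  have e2' : (d : ℝ) * (g 2 : ℝ) = (C : ℝ) := by exact_mod_cast e2
  have hrel : (A : ℝ) + B * x + C * y = 0 := by
    rw [← e0', ← e1', ← e2']
    have : (d : ℝ) * ((g 0 : ℝ) + (g 1 : ℝ) * x + (g 2 : ℝ) * y) = 0 := by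
      rw [hg, mul_zero]
    linarith
  have hBC : B = 0 ∧ C = 0 := by
    by_contra hcon
    refine h A B C ?_ hrel
    by_contra h2
    push Not at h2
    exact hcon h2
  have hdQ : (d : ℚ) ≠ 0 := by exact_mod_cast hd0
  have hA0 : A = 0 := by
    rw [hBC.1, hBC.2] at hrel
    have : (A : ℝ) = 0 := by simpa using hrel
    exact_mod_cast this
  intro i
  fin_cases i
  · have : (d : ℚ) * g 0 = 0 := by rw [e0, hA0]; simp
    exact (mul_eq_zero.1 this).resolve_left hdQ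
  · have : (d : ℚ) * g 1 = 0 := by rw [e1, hBC.1]; simp
    exact (mul_eq_zero.1 this).resolve_left hdQ
  · have : (d : ℚ) * g 2 = 0 := by rw [e2, hBC.2]; simp
    exact (mul_eq_zero.1 this).resolve_left hdQ

end Pool.Agent.LP.MS
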