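import Mathlib

/-!
# Consequences of the linear independence of `1, log 2, π²` for quadratic relations between `log 2` and `π i`
-/

namespace Pool.Agent.LP.MS

open MvPolynomial

/-- exponent vector `(i, j)` -/
noncomputable def ev (i j : ℕ) : Fin 2 →₀ ℕ := Finsupp.single 0 i + Finsupp.single 1 j

lemma ev_zero (i j : ℕ) : ev i j 0 = i := by simp [ev]

lemma ev_one (i j : ℕ) : ev i j 1 = j := by simp [ev]

lemma eq_ev (d : Fin 2 →₀ ℕ) : d = ev (d 0) (d 1) := by
  ext k
  fin_cases k
  · simp [ev]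
  · simp [ev]

lemma aeval_quad (f : MvPolynomial (Fin 2) ℚ) (hf : f.totalDegree ≤ 2) (x y : ℂ) :
    aeval ![x, y] f = ((f.coeff (ev 0 0) : ℚ) : ℂ) + ((f.coeff (ev 1 0) : ℚ) : ℂ) * x +
      ((f.coeff (ev 0 1) : ℚ) : ℂ) * y + ((f.coeff (ev 2 0) : ℚ) : ℂ) * x ^ 2 +
      ((f.coeff (ev 1 1) : ℚ) : ℂ) * (x * y) + ((f.coeff (ev 0 2) : ℚ) : ℂ) * y ^ 2 := by
  classical
  set T : Finset (ℕ × ℕ) := {(0, 0), (1, 0), (0, 1), (2, 0), (1, 1), (0, 2)} with hT
  have hinj : Set.InjOn (fun p : ℕ × ℕ => ev p.1 p.2) (T : Set (ℕ × ℕ)) := by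
    intro p _ q _ h
    have h0 := congrArg (fun d => d 0) h
    have h1 := congrArg (fun d => d 1) h
    simp only [ev_zero, ev_one] at h0 h1
    exact Prod.ext h0 h1
  have hsub : f.support ⊆ T.image (fun p : ℕ × ℕ => ev p.1 p.2) := by
    intro d hd
    have h := (MvPolynomial.le_totalDegree hd).trans hf
    rw [Finsupp.sum_fintype _ _ (fun _ => rfl), Fin.sum_univ_two] at h
    rw [Finset.mem_image]
    refine ⟨(d 0, d 1), ?_, (eq_ev d).symm⟩
    have h0 : d 0 ≤ 2 := by omega
    have h1 : d 1 ≤ 2 := by omega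
    generalize d 0 = i at *
    generalize d 1 = j at *
    rw [hT]
    interval_cases i <;> interval_cases j <;> simp_all
  rw [aeval_def, eval₂_eq']
  have e1 : ∑ d ∈ f.support, (algebraMap ℚ ℂ) (coeff d f) * ∏ i, ![x, y] i ^ d i =
      ∑ d ∈ T.image (fun p : ℕ × ℕ => ev p.1 p.2), (algebraMap ℚ ℂ) (coeff d f) * ∏ i, ![x, y] i ^ d i := by
    apply Finset.sum_subset hsub
    intro d _ hd
    rw [MvPolynomial.notMem_support_iff.1 hd, map_zero, zero_mul]
  rw [e1, Finset.sum_image hinj, hT]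
  rw [Finset.sum_insert (by decide), Finset.sum_insert (by decide), Finset.sum_insert (by decide),
    Finset.sum_insert (by decide), Finset.sum_insert (by decide), Finset.sum_singleton]
  simp only [Fin.prod_univ_two, ev_zero, ev_one, Matrix.cons_val_zero, Matrix.cons_val_one, pow_zero, pow_one,
    mul_one, one_mul, eq_ratCast]
  ring

/-- a nonzero rational relation of total degree `≤ 2` between `log 2` and `π i` contains `(log 2)²` -/
theorem quad_of (hli : LinearIndependent ℚ ![(1 : ℝ), Real.log 2, Real.pi ^ 2])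
    (f : MvPolynomial (Fin 2) ℚ) (hf0 : f ≠ 0) (hf : f.totalDegree ≤ 2)
    (hc : f.coeff (Finsupp.single 0 2) = 0) :
    aeval ![(Real.log 2 : ℂ), (Real.pi : ℂ) * Complex.I] f ≠ 0 := by
  intro h
  rw [aeval_quad f hf] at h
  have hc' : f.coeff (ev 2 0) = 0 := by
    rw [← hc]; congr 1; simp [ev]
  rw [hc'] at h
  set A := f.coeff (ev 0 0) with hA
  set B := f.coeff (ev 1 0) with hB
  set C := f.coeff (ev 0 1) with hC
  set D := f.coeff (ev 1 1) with hD
  set E := f.coeff (ev 0 2) with hE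
  have e : ((A : ℂ) + (B : ℂ) * (Real.log 2 : ℂ) + (C : ℂ) * ((Real.pi : ℂ) * Complex.I) +
      ((0 : ℚ) : ℂ) * (Real.log 2 : ℂ) ^ 2 + (D : ℂ) * ((Real.log 2 : ℂ) * ((Real.pi : ℂ) * Complex.I)) +
      (E : ℂ) * ((Real.pi : ℂ) * Complex.I) ^ 2) =
      (((A : ℝ) + B * Real.log 2 - E * Real.pi ^ 2 : ℝ) : ℂ) +
        ((Real.pi * ((C : ℝ) + D * Real.log 2) : ℝ) : ℂ) * Complex.I := by
    simp only [Complex.ofReal_sub, Complex.ofReal_add, Complex.ofReal_mul, Complex.ofReal_pow,
      Complex.ofReal_ratCast, Rat.cast_zero]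
    rw [mul_pow, Complex.I_sq]
    ring
  have h2 := e.symm.trans h
  have hre : (A : ℝ) + B * Real.log 2 - E * Real.pi ^ 2 = 0 := by
    have h1 := congrArg Complex.re h2
    rwa [Complex.add_re, Complex.ofReal_re, Complex.re_ofReal_mul, Complex.I_re, mul_zero, add_zero,
      Complex.zero_re] at h1
  have him : Real.pi * ((C : ℝ) + D * Real.log 2) = 0 := by
    have h1 := congrArg Complex.im h2
    rwa [Complex.add_im, Complex.ofReal_im, Complex.im_ofReal_mul, Complex.I_im, mul_one, zero_add,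
      Complex.zero_im] at h1
  have him' : (C : ℝ) + D * Real.log 2 = 0 := (mul_eq_zero.1 him).resolve_left Real.pi_ne_zero
  rw [Fintype.linearIndependent_iff] at hli
  have k1 := hli ![A, B, -E] (by
    rw [Fin.sum_univ_three]
    simp only [Matrix.cons_val_zero, Matrix.cons_val_one, Matrix.cons_val_two, Matrix.head_cons,
      Matrix.tail_cons, Rat.smul_def, mul_one, Matrix.cons_val]
    push_cast
    linarith)
  have k2 := hli ![C, D, 0] (by
    rw [Fin.sum_univ_three]
    simp only [Matrix.cons_val_zero, Matrix.cons_val_one, Matrix.cons_val_two, Matrix.head_cons,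
      Matrix.tail_cons, Rat.smul_def, mul_one, Matrix.cons_val]
    push_cast
    linarith)
  have hA0 : A = 0 := by simpa using k1 0
  have hB0 : B = 0 := by simpa using k1 1
  have hE0 : E = 0 := by simpa using k1 2
  have hC0 : C = 0 := by simpa using k2 0
  have hD0 : D = 0 := by simpa using k2 1
  apply hf0
  ext d
  rw [coeff_zero]
  by_cases hd : d ∈ f.support
  · have h := (MvPolynomial.le_totalDegree hd).trans hf
    rw [Finsupp.sum_fintype _ _ (fun _ => rfl), Fin.sum_univ_two] at h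
    have h0 : d 0 ≤ 2 := by omega
    have h1 : d 1 ≤ 2 := by omega
    rw [eq_ev d]
    generalize d 0 = i at *
    generalize d 1 = j at *
    interval_cases i <;> interval_cases j <;> first | omega | assumption
  · exact MvPolynomial.notMem_support_iff.1 hd

end Pool.Agent.LP.MS
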